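import Mathlib

/-!
# The Chevalley–Eilenberg complex of a Lie algebra with trivial coefficients

It is modelled on the exterior algebra of the Lie algebra.
-/

set_option autoImplicit false

namespace Pool.Agent.U691.CE

open ExteriorAlgebra

variable {F : Type} [Field F]

section Th

variable {L : Type} [AddCommGroup L] [Module F L]

/-- auxiliary map for the extension of a linear map to a derivation -/
noncomputable def ThAux (D : L →ₗ[F] L) :
    L →ₗ[F] ExteriorAlgebra F L × ExteriorAlgebra F L →ₗ[F] ExteriorAlgebra F L :=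
  LinearMap.mk₂ F (fun y p => ι F (D y) * p.1 + ι F y * p.2)
    (by intro a b p; simp only [map_add, add_mul]; abel)
    (by intro c a p; simp only [map_smul, smul_mul_assoc, smul_add])
    (by intro a p q; simp only [Prod.fst_add, Prod.snd_add, mul_add]; abel)
    (by intro c a p; simp only [Prod.smul_fst, Prod.smul_snd, mul_smul_comm, smul_add])

theorem ThAux_sq (D : L →ₗ[F] L) (y : L) (x fx : ExteriorAlgebra F L) :
    ThAux D y (ι F y * x, ThAux D y (x, fx)) = (0 : QuadraticForm F L) y • fx := by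
  simp only [ThAux, LinearMap.mk₂_apply, zero_apply, zero_smul]
  rw [mul_add, ← mul_assoc, ← mul_assoc, ← mul_assoc, ι_sq_zero, zero_mul, add_zero, ← add_mul,
    ExteriorAlgebra.ι_add_mul_swap, zero_mul]

/-- the derivation of the exterior algebra which extends the linear map `D` -/
noncomputable def Th (D : L →ₗ[F] L) : ExteriorAlgebra F L →ₗ[F] ExteriorAlgebra F L :=
  CliffordAlgebra.foldr' 0 (ThAux D) (ThAux_sq D) 0

theorem Th_one (D : L →ₗ[F] L) : Th D 1 = 0 := by
  have := CliffordAlgebra.foldr'_algebraMap 0 (ThAux D) (ThAux_sq D) 0 1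
  rw [map_one, smul_zero] at this
  exact this

theorem Th_algebraMap (D : L →ₗ[F] L) (r : F) : Th D (algebraMap F _ r) = 0 := by
  have := CliffordAlgebra.foldr'_algebraMap 0 (ThAux D) (ThAux_sq D) 0 r
  rw [smul_zero] at this
  exact this

theorem Th_ι_mul (D : L →ₗ[F] L) (y : L) (ω : ExteriorAlgebra F L) :
    Th D (ι F y * ω) = ι F (D y) * ω + ι F y * Th D ω :=
  CliffordAlgebra.foldr'_ι_mul 0 (ThAux D) (ThAux_sq D) 0 y ω

/-- induction principle -/
theorem ind {P : ExteriorAlgebra F L → Prop} (h0 : ∀ r : F, P (algebraMap F _ r))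
    (ha : ∀ x y, P x → P y → P (x + y)) (hm : ∀ x (m : L), P x → P (ι F m * x)) :
    ∀ x, P x := CliffordAlgebra.left_induction (Q := (0 : QuadraticForm F L)) h0 ha hm

theorem Th_ι (D : L →ₗ[F] L) (y : L) : Th D (ι F y) = ι F (D y) := by
  have := Th_ι_mul D y 1
  rwa [mul_one, mul_one, Th_one, mul_zero, add_zero] at this

theorem Th_mul (D : L →ₗ[F] L) (a b : ExteriorAlgebra F L) :
    Th D (a * b) = Th D a * b + a * Th D b := by
  induction a using ind with
  | h0 r => 
    rw [Th_algebraMap, zero_mul, zero_add, ← Algebra.smul_def, ← Algebra.smul_def, map_smul]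
  | ha x y hx hy =>
    rw [add_mul, map_add, hx, hy, map_add, add_mul, add_mul]; abel
  | hm x m hx =>
    rw [mul_assoc, Th_ι_mul, hx, Th_ι_mul, add_mul, mul_add, mul_assoc, mul_assoc, mul_assoc,
      add_assoc]

theorem Th_add (D D' : L →ₗ[F] L) (ω : ExteriorAlgebra F L) :
    Th (D + D') ω = Th D ω + Th D' ω := by
  induction ω using ind with
  | h0 r => simp only [Th_algebraMap, add_zero]
  | ha x y hx hy => simp only [map_add, hx, hy]; abel
  | hm x m hx =>
    simp only [Th_ι_mul, hx, LinearMap.add_apply, map_add, add_mul, mul_add]; abel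

theorem Th_smul (c : F) (D : L →ₗ[F] L) (ω : ExteriorAlgebra F L) :
    Th (c • D) ω = c • Th D ω := by
  induction ω using ind with
  | h0 r => simp only [Th_algebraMap, smul_zero]
  | ha x y hx hy => simp only [map_add, hx, hy, smul_add]
  | hm x m hx =>
    simp only [Th_ι_mul, hx, LinearMap.smul_apply, map_smul, smul_mul_assoc, mul_smul_comm,
      smul_add]

theorem Th_lie (D D' : L →ₗ[F] L) (ω : ExteriorAlgebra F L) :
    Th (D * D' - D' * D) ω = Th D (Th D' ω) - Th D' (Th D ω) := by
  induction ω using ind with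
  | h0 r => simp only [Th_algebraMap, map_zero, sub_zero]
  | ha x y hx hy => simp only [map_add, hx, hy]; abel
  | hm x m hx =>
    simp only [Th_ι_mul, hx, LinearMap.sub_apply, Module.End.mul_apply, map_sub, map_add,
      sub_mul, mul_sub]
    abel

theorem Th_zero (ω : ExteriorAlgebra F L) : Th (0 : L →ₗ[F] L) ω = 0 := by
  have := Th_smul 0 (0 : L →ₗ[F] L) ω
  rwa [zero_smul, zero_smul] at this

theorem Th_neg (D : L →ₗ[F] L) (ω : ExteriorAlgebra F L) : Th (-D) ω = - Th D ω := by
  have := Th_smul (-1) D ω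
  rwa [neg_one_smul, neg_one_smul] at this

theorem Th_sub (D D' : L →ₗ[F] L) (ω : ExteriorAlgebra F L) :
    Th (D - D') ω = Th D ω - Th D' ω := by
  rw [sub_eq_add_neg, Th_add, Th_neg, sub_eq_add_neg]

theorem ι_mul_mem (y : L) {k : ℕ} {ω : ExteriorAlgebra F L} (h : ω ∈ ⋀[F]^k L) :
    ι F y * ω ∈ ⋀[F]^(k + 1) L := by
  have h1 : ι F y * ω ∈ (LinearMap.range (ι F : L →ₗ[F] ExteriorAlgebra F L)) *
      (LinearMap.range (ι F : L →ₗ[F] ExteriorAlgebra F L)) ^ k :=
    Submodule.mul_mem_mul ⟨_, rfl⟩ h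
  rwa [← pow_succ'] at h1

/-- The derivation `Th D` preserves the exterior powers. -/
theorem Th_mem (D : L →ₗ[F] L) {k : ℕ} {ω : ExteriorAlgebra F L} (h : ω ∈ ⋀[F]^k L) :
    Th D ω ∈ ⋀[F]^k L := by
  induction h using Submodule.pow_induction_on_left' with
  | algebraMap r => rw [Th_algebraMap]; exact Submodule.zero_mem _
  | add x y i _ _ hx hy => rw [map_add]; exact Submodule.add_mem _ hx hy
  | mem_mul m hm i x hx ih =>
    obtain ⟨y, rfl⟩ := hm
    rw [Th_ι_mul]
    exact Submodule.add_mem _ (ι_mul_mem _ hx) (ι_mul_mem _ ih)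

end Th

section Lie

variable {L : Type} [LieRing L] [LieAlgebra F L]

/-- `ad x` -/
noncomputable def adL (x : L) : L →ₗ[F] L := (LieAlgebra.ad F L x : Module.End F L)

theorem adL_apply (x y : L) : adL (F := F) x y = ⁅x, y⁆ := rfl

theorem adL_add (x y : L) : adL (F := F) (x + y) = adL x + adL y := by
  ext z; simp [adL_apply]

theorem adL_smul (c : F) (x : L) : adL (F := F) (c • x) = c • adL x := by
  ext z; simp [adL_apply]

/-- auxiliary map for the differential -/
noncomputable def dAux :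
    L →ₗ[F] ExteriorAlgebra F L × ExteriorAlgebra F L →ₗ[F] ExteriorAlgebra F L :=
  LinearMap.mk₂ F (fun y p => Th (adL y) p.1 - ι F y * p.2)
    (by intro a b p; simp only [adL_add, Th_add, map_add, add_mul]; abel)
    (by intro c a p; simp only [adL_smul, Th_smul, map_smul, smul_mul_assoc, smul_sub])
    (by intro a p q; simp only [Prod.fst_add, Prod.snd_add, map_add, mul_add]; abel)
    (by intro c a p; simp only [Prod.smul_fst, Prod.smul_snd, map_smul, mul_smul_comm, smul_sub])

theorem dAux_sq (y : L) (x fx : ExteriorAlgebra F L) :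
    dAux y (ι F y * x, dAux y (x, fx)) = (0 : QuadraticForm F L) y • fx := by
  simp only [dAux, LinearMap.mk₂_apply, zero_apply, zero_smul, Th_ι_mul, adL_apply,
    lie_self, map_zero, zero_mul, zero_add, mul_sub]
  rw [← mul_assoc, ι_sq_zero, zero_mul]
  abel

/-- The Chevalley–Eilenberg differential (trivial coefficients) on the exterior algebra of the
Lie algebra `L`.  It is the linear map with `d(1) = 0` and
`d(x ∧ ω) = (ad x)(ω) - x ∧ d(ω)`, where `ad x` acts on the exterior algebra by derivations; thus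
`d(x₁ ∧ … ∧ x_k) = ∑_{i < j} (-1)^(i+j+1) [x_i, x_j] ∧ x₁ ∧ … x̂_i … x̂_j … ∧ x_k`. -/
noncomputable def d : ExteriorAlgebra F L →ₗ[F] ExteriorAlgebra F L :=
  CliffordAlgebra.foldr' 0 dAux dAux_sq 0

theorem d_algebraMap (r : F) : d (F := F) (L := L) (algebraMap F _ r) = 0 := by
  have := CliffordAlgebra.foldr'_algebraMap 0 (dAux (F := F) (L := L)) dAux_sq 0 r
  rw [smul_zero] at this
  exact this

theorem d_ι_mul (y : L) (ω : ExteriorAlgebra F L) :
    d (ι F y * ω) = Th (adL y) ω - ι F y * d ω :=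
  CliffordAlgebra.foldr'_ι_mul 0 dAux dAux_sq 0 y ω

theorem d_ι (y : L) : d (ι F y) = 0 := by
  have := d_ι_mul (F := F) y 1
  have h1 := d_algebraMap (F := F) (L := L) 1
  rw [map_one] at h1
  rwa [mul_one, Th_one, h1, mul_zero, sub_zero] at this

/-- `D` is a derivation of the Lie algebra `L` -/
def IsDer (D : L →ₗ[F] L) : Prop := ∀ x y : L, D ⁅x, y⁆ = ⁅D x, y⁆ + ⁅x, D y⁆

theorem isDer_adL (x : L) : IsDer (adL (F := F) x) := by
  intro y z
  simp only [adL_apply]
  exact leibniz_lie x y z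

theorem d_Th {D : L →ₗ[F] L} (hD : IsDer D) (ω : ExteriorAlgebra F L) :
    d (Th D ω) = Th D (d ω) := by
  induction ω using ind with
  | h0 r => rw [Th_algebraMap, d_algebraMap, map_zero, map_zero]
  | ha x y hx hy => simp only [map_add, hx, hy]
  | hm x m hx =>
    have h1 : D * adL m - adL m * D = adL (F := F) (D m) := by
      ext z
      simp only [LinearMap.sub_apply, Module.End.mul_apply, adL_apply]
      rw [hD]
      abel
    have h2 := Th_lie D (adL m) x
    rw [h1] at h2
    rw [Th_ι_mul, map_add, d_ι_mul, d_ι_mul, d_ι_mul, map_sub, Th_ι_mul, hx, h2]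
    abel

theorem d_d (ω : ExteriorAlgebra F L) : d (d ω) = 0 := by
  induction ω using ind with
  | h0 r => rw [d_algebraMap, map_zero]
  | ha x y hx hy => simp only [map_add, hx, hy, add_zero]
  | hm x m hx =>
    rw [d_ι_mul, map_sub, d_Th (isDer_adL m), d_ι_mul, hx, mul_zero, sub_zero, sub_self]

theorem d_mem_aux {k : ℕ} {ω : ExteriorAlgebra F L} (h : ω ∈ ⋀[F]^k L) :
    (k = 0 → d ω = 0) ∧ ∀ j, k = j + 1 → d ω ∈ ⋀[F]^j L := by
  induction h using Submodule.pow_induction_on_left' with
  | algebraMap r => 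
    refine ⟨fun _ => d_algebraMap r, fun j hj => by omega⟩
  | add x y i _ _ hx hy => 
    refine ⟨fun h => by rw [map_add, hx.1 h, hy.1 h, add_zero], fun j hj => ?_⟩
    rw [map_add]; exact Submodule.add_mem _ (hx.2 j hj) (hy.2 j hj)
  | mem_mul m hm i x hx ih =>
    obtain ⟨y, rfl⟩ := hm
    refine ⟨fun h => by simp at h, fun j hj => ?_⟩
    have hij : i = j := by simpa using hj
    subst hij
    rw [d_ι_mul]
    refine Submodule.sub_mem _ (Th_mem _ hx) ?_
    cases i with
    | zero => rw [ih.1 rfl, mul_zero]; exact Submodule.zero_mem _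
    | succ i =>
      exact ι_mul_mem _ (ih.2 i rfl)

theorem d_mem {k : ℕ} {ω : ExteriorAlgebra F L} (h : ω ∈ ⋀[F]^(k + 1) L) :
    d ω ∈ ⋀[F]^k L := (d_mem_aux h).2 k rfl

variable (F L)

/-- the cycles in the `k`-th exterior power -/
noncomputable def Zk (k : ℕ) : Submodule F (ExteriorAlgebra F L) :=
  (⋀[F]^k L) ⊓ LinearMap.ker (d (F := F) (L := L))

/-- the boundaries in the `k`-th exterior power -/
noncomputable def Bk (k : ℕ) : Submodule F (ExteriorAlgebra F L) :=
  (⋀[F]^(k + 1) L).map (d (F := F) (L := L))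

/-- The homology `H_k(L, F)` of the Lie algebra `L` with trivial coefficients: the cycles in
`Λ^k L` modulo the boundaries of elements of `Λ^(k+1) L`. -/
abbrev Hk (k : ℕ) : Type := ↥(Zk F L k) ⧸ (Bk F L k).comap (Zk F L k).subtype

variable {F L}

theorem Th_Zk {D : L →ₗ[F] L} (hD : IsDer D) {k : ℕ} {ω : ExteriorAlgebra F L}
    (h : ω ∈ Zk F L k) : Th D ω ∈ Zk F L k := by
  refine ⟨Th_mem D h.1, ?_⟩
  have h2 : d ω = 0 := h.2
  show d (Th D ω) = 0
  rw [d_Th hD, h2, map_zero]

theorem Th_Bk {D : L →ₗ[F] L} (hD : IsDer D) {k : ℕ} {ω : ExteriorAlgebra F L}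
    (h : ω ∈ Bk F L k) : Th D ω ∈ Bk F L k := by
  obtain ⟨η, hη, rfl⟩ := h
  exact ⟨Th D η, Th_mem D hη, d_Th hD η⟩

/-- The action of a derivation of `L` on the homology `H_k(L, F)`. -/
noncomputable def actH {D : L →ₗ[F] L} (hD : IsDer D) (k : ℕ) : Hk F L k →ₗ[F] Hk F L k :=
  Submodule.mapQ _ _ ((Th D).restrict (p := Zk F L k) (q := Zk F L k) fun _ h => Th_Zk hD h)
    (by
      rintro ⟨ω, hω⟩ h
      exact Th_Bk hD h)

end Lie

end Pool.Agent.U691.CE
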