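import Pool.Agent.U691.CE.HW
import Pool.Agent.U691.KM.Main

/-!
# Generating functions: the product formula for the character of the exterior algebra
-/

set_option autoImplicit false
set_option linter.unusedSectionVars false

namespace Pool.Agent.U691.CE

open Pool.Agent.U691.KM

variable {F : Type} [Field F] [CharZero F] {L : Type} [LieRing L] [LieAlgebra F L] {I : Type}
  [LinearOrder I]

namespace Dat

variable (X : Dat F L I) (wt : I → ℤ)

/-- the degree of a basis element as a natural number -/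
def dg (j : I) : ℕ := (X.deg j).toNat

theorem dg_cast (j : I) : (X.dg j : ℤ) = X.deg j := Int.toNat_of_nonneg (by
  have := X.pos j; omega)

variable {K : Type} [CommRing K] {τ : K} (hτ : τ ^ 19 = 0)

/-- the product of all `1 - t^(deg j) e^(wt j)` with `deg j ≤ 18` -/
noncomputable def Phi (τ : K) : AddMonoidAlgebra K ℤ :=
  ∏ j ∈ X.In 18, (1 - tt τ ^ X.dg j * eK K (wt j))

theorem prod_term (s : Finset I) : ∏ j ∈ s, (-(tt τ ^ X.dg j * eK K (wt j))) =
    ((-1) ^ s.card * τ ^ (∑ j ∈ s, X.dg j)) • eK K (∑ j ∈ s, wt j) := by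
  classical
  induction s using Finset.induction_on with
  | empty => simp [eK_zero]
  | insert a s ha ih =>
    rw [Finset.prod_insert ha, ih, Finset.card_insert_of_notMem ha, Finset.sum_insert ha,
      Finset.sum_insert ha, ← eK_mul, Algebra.smul_def, Algebra.smul_def, map_mul, map_mul,
      map_pow, map_pow, map_neg, map_one, map_pow, map_pow]
    simp only [map_neg, map_one]
    ring

theorem Phi_coeff (τ : K) (i : ℤ) : (X.Phi wt τ).coeff i =
    ∑ s ∈ (X.In 18).powerset with ∑ j ∈ s, wt j = i,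
      (-1) ^ s.card * τ ^ (∑ j ∈ s, X.dg j) := by
  unfold Phi
  simp only [sub_eq_add_neg]
  rw [Finset.prod_one_add, AddMonoidAlgebra.coeff_sum, Finsupp.coe_finsetSum, Finset.sum_apply,
    Finset.sum_filter]
  refine Finset.sum_congr rfl fun s _ => ?_
  rw [prod_term, AddMonoidAlgebra.coeff_smul_apply, coeff_eK]
  split_ifs <;> simp

theorem sum_dg (s : Finset I) : ((∑ j ∈ s, X.dg j : ℕ) : ℤ) = ∑ j ∈ s, X.deg j := by
  push_cast
  exact Finset.sum_congr rfl fun j _ => X.dg_cast j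

theorem cnt_eq (hwt : ∀ j, X.hw j = 2 * wt j) (k n : ℕ) (hn : n ≤ 18) (i : ℤ) :
    X.cnt k n (2 * i) = ((X.In 18).powerset.filter fun s =>
      (∑ j ∈ s, X.dg j = n ∧ ∑ j ∈ s, wt j = i) ∧ s.card = k).card := by
  unfold cnt
  apply Nat.subtype_card
  intro s
  rw [Finset.mem_filter, Finset.mem_powerset, gs_eq]
  have h1 : ∑ j ∈ s, X.hw j = 2 * ∑ j ∈ s, wt j := by
    rw [Finset.mul_sum]
    exact Finset.sum_congr rfl fun j _ => hwt j
  have h2 := X.sum_dg s
  constructor
  · rintro ⟨_, ⟨h3, h4⟩, h5⟩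
    refine ⟨h5, ?_, ?_⟩
    · rw [← h2, h3]
    · rw [h1, h4]
  · rintro ⟨h5, h3, h4⟩
    refine ⟨X.sub_In (by rw [h3]; omega), ⟨?_, ?_⟩, h5⟩
    · have : ((∑ j ∈ s, X.dg j : ℕ) : ℤ) = n := by rw [h2, h3]
      exact_mod_cast this
    · omega

/-- the Euler characteristic in degree `n` and weight `i` -/
noncomputable def chi (n : ℕ) (i : ℤ) : ℤ :=
  ∑ s ∈ (X.In 18).powerset with ∑ j ∈ s, X.dg j = n ∧ ∑ j ∈ s, wt j = i, (-1) ^ s.card

theorem chi_eq (hwt : ∀ j, X.hw j = 2 * wt j) (n : ℕ) (hn : n ≤ 18) (i : ℤ) (m : ℕ) (hm : n < m) :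
    ∑ k ∈ Finset.range m, (-1 : ℤ) ^ k * (X.cnt k n (2 * i) : ℤ) = X.chi wt n i := by
  unfold chi
  rw [← Finset.sum_fiberwise_of_maps_to (g := Finset.card) (t := Finset.range m)]
  · refine Finset.sum_congr rfl fun k _ => ?_
    rw [X.cnt_eq wt hwt k n hn i, Finset.filter_filter, Finset.card_eq_sum_ones, Nat.cast_sum,
      Finset.mul_sum]
    refine Finset.sum_congr rfl fun s hs => ?_
    rw [Finset.mem_filter] at hs
    rw [hs.2.2]
    simp
  · intro s hs
    rw [Finset.mem_filter] at hs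
    rw [Finset.mem_range]
    refine lt_of_le_of_lt ?_ hm
    rw [← hs.2.1]
    have h1 := X.card_le s
    rw [← X.sum_dg] at h1
    exact_mod_cast h1

include hτ in
theorem Phi_coeff' (i : ℤ) : (X.Phi wt τ).coeff i =
    ∑ n ∈ Finset.range 19, τ ^ n * ((X.chi wt n i : ℤ) : K) := by
  classical
  rw [Phi_coeff]
  set P := (X.In 18).powerset.filter (fun s => ∑ j ∈ s, wt j = i) with hP
  have h1 : ∑ s ∈ P, (-1 : K) ^ s.card * τ ^ (∑ j ∈ s, X.dg j) =
      ∑ s ∈ P.filter (fun s => ∑ j ∈ s, X.dg j < 19),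
        (-1 : K) ^ s.card * τ ^ (∑ j ∈ s, X.dg j) := by
    symm
    apply Finset.sum_subset (Finset.filter_subset _ _)
    intro s hs1 hs2
    rw [Finset.mem_filter, not_and, not_lt] at hs2
    obtain ⟨k, hk⟩ := Nat.exists_eq_add_of_le (hs2 hs1)
    rw [hk, pow_add, hτ, zero_mul, mul_zero]
  rw [h1, ← Finset.sum_fiberwise_of_maps_to (g := fun s => ∑ j ∈ s, X.dg j)
    (t := Finset.range 19)]
  · refine Finset.sum_congr rfl fun n hn => ?_
    rw [Finset.mem_range] at hn
    unfold chi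
    rw [Int.cast_sum, Finset.mul_sum]
    apply Finset.sum_congr
    · ext s
      simp only [hP, Finset.mem_filter]
      constructor
      · rintro ⟨⟨⟨h1, h2⟩, h3⟩, h4⟩
        exact ⟨h1, h4, h2⟩
      · rintro ⟨h1, h4, h2⟩
        exact ⟨⟨⟨h1, h2⟩, by omega⟩, h4⟩
    · intro s hs
      rw [Finset.mem_filter] at hs
      rw [hs.2.1]
      push_cast
      ring
  · intro s hs
    rw [Finset.mem_filter] at hs
    exact Finset.mem_range.2 hs.2

end Dat

end Pool.Agent.U691.CE
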