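import Mathlib

/-!
# Rank and nullity: Euler characteristics
-/

set_option autoImplicit false
set_option linter.unusedSectionVars false

namespace Pool.Agent.U691.CE

variable {F : Type} [Field F] {E : Type} [AddCommGroup E] [Module F E]

theorem rank_nullity (d : E →ₗ[F] E) (K : Submodule F E) [FiniteDimensional F K] :
    Module.finrank F K = Module.finrank F (K.map d) +
      Module.finrank F (K ⊓ LinearMap.ker d : Submodule F E) := by
  rw [← LinearMap.finrank_range_add_finrank_ker (d.domRestrict K)]
  congr 1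
  · rw [LinearMap.range_domRestrict]
  · have h : (LinearMap.ker (d.domRestrict K)).map K.subtype = K ⊓ LinearMap.ker d := by
      ext x
      constructor
      · rintro ⟨y, hy, rfl⟩
        exact ⟨y.2, hy⟩
      · rintro ⟨h1, h2⟩
        exact ⟨⟨x, h1⟩, h2, rfl⟩
    rw [← h]
    exact (Submodule.finrank_map_subtype_eq K _).symm

/-- the Euler characteristic of an exact complex -/
theorem euler (d : E →ₗ[F] E) (K : ℕ → Submodule F E) (hfin : ∀ k, FiniteDimensional F (K k))
    (hd : ∀ k, ∀ v ∈ K (k + 1), d v ∈ K k) (hdd : ∀ v, d (d v) = 0) (h0 : K 0 = ⊥)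
    (hex : ∀ k, ∀ v ∈ K (k + 1), d v = 0 → ∃ u ∈ K (k + 2), d u = v) (m : ℕ) (hm : K m = ⊥) :
    ∑ k ∈ Finset.range m, (-1 : ℤ) ^ k * (Module.finrank F (K k) : ℤ) = 0 := by
  have h1 : ∀ k, (Module.finrank F (K k) : ℤ) =
      (Module.finrank F ((K (k + 1)).map d) : ℤ) + Module.finrank F ((K k).map d) := by
    intro k
    cases k with
    | zero =>
      have h2 : (K (0 + 1)).map d = ⊥ := by
        rw [eq_bot_iff, ← h0]
        rintro _ ⟨v, hv, rfl⟩
        exact hd 0 v hv
      rw [h2, h0, Submodule.map_bot]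
      simp
    | succ k =>
      have h2 : K (k + 1) ⊓ LinearMap.ker d = (K (k + 1 + 1)).map d := by
        apply le_antisymm
        · rintro v ⟨hv1, hv2⟩
          obtain ⟨u, hu, huv⟩ := hex k v hv1 hv2
          exact ⟨u, hu, huv⟩
        · rintro _ ⟨v, hv, rfl⟩
          exact ⟨hd _ v hv, hdd v⟩
      rw [rank_nullity d (K (k + 1)), h2]
      push_cast
      ring
  have h3 : ∀ m, ∑ k ∈ Finset.range m, (-1 : ℤ) ^ k * (Module.finrank F (K k) : ℤ) =
      Module.finrank F ((K 0).map d) - (-1) ^ m * Module.finrank F ((K m).map d) := by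
    intro m
    induction m with
    | zero => simp
    | succ m ih =>
      rw [Finset.sum_range_succ, ih, h1 m]
      ring
  rw [h3, hm, h0, Submodule.map_bot]
  simp

end Pool.Agent.U691.CE
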