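import Pool.Agent.U691.CE.Basic

/-!
# Gradings of the Chevalley–Eilenberg complex
-/

set_option autoImplicit false
set_option linter.unusedSectionVars false

namespace Pool.Agent.U691.CE

open ExteriorAlgebra

variable {F : Type} [Field F]

section Diag

variable {L : Type} [AddCommGroup L] [Module F L]

theorem Th_ιMulti {D : L →ₗ[F] L} {n : ℕ} (v : Fin n → L) (c : Fin n → ℤ)
    (h : ∀ i, D (v i) = (c i : F) • v i) :
    Th D (ιMulti F n v) = ((∑ i, c i : ℤ) : F) • ιMulti F n v := by
  induction n with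
  | zero =>
    rw [ιMulti_zero_apply, Th_one]
    simp
  | succ n ih =>
    have h1 := ih (Matrix.vecTail v) (fun i => c i.succ) (fun i => h i.succ)
    rw [ιMulti_succ_apply, Th_ι_mul, h1, h 0, map_smul, Fin.sum_univ_succ, Int.cast_add, add_smul,
      smul_mul_assoc, mul_smul_comm]

variable {I : Type} [LinearOrder I] (b : Module.Basis I F L)

theorem basis_eq (s : Finset I) :
    b.ExteriorAlgebra s = ιMulti F s.card (fun i => b (s.orderEmbOfFin rfl i)) :=
  ExteriorAlgebra.basis_apply b s

theorem Th_basis {D : L →ₗ[F] L} {c : I → ℤ} (hc : ∀ j, D (b j) = (c j : F) • b j)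
    (s : Finset I) : Th D (b.ExteriorAlgebra s) =
      ((∑ j ∈ s, c j : ℤ) : F) • b.ExteriorAlgebra s := by
  rw [basis_eq, Th_ιMulti _ (fun i => c (s.orderEmbOfFin rfl i)) (fun i => hc _)]
  congr 2
  rw [← Finset.sum_coe_sort s c]
  exact Fintype.sum_equiv (s.orderIsoOfFin rfl).toEquiv _ _ fun i => rfl

theorem basis_mem (s : Finset I) : b.ExteriorAlgebra s ∈ ⋀[F]^(s.card) L := by
  rw [basis_eq]
  exact ExteriorAlgebra.ιMulti_range F s.card ⟨_, rfl⟩

variable {κ : Type} (D : κ → L →ₗ[F] L) (c : κ → I → ℤ)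

/-- the elements of exterior degree `k` and weight `γ` -/
noncomputable def W (k : ℕ) (γ : κ → ℤ) : Submodule F (ExteriorAlgebra F L) where
  carrier := {ω | Th LinearMap.id ω = (k : F) • ω ∧ ∀ a, Th (D a) ω = (γ a : F) • ω}
  add_mem' := by
    intro x y hx hy
    refine ⟨?_, fun a => ?_⟩
    · rw [map_add, hx.1, hy.1, smul_add]
    · rw [map_add, hx.2 a, hy.2 a, smul_add]
  zero_mem' := by
    refine ⟨?_, fun a => ?_⟩
    · rw [map_zero, smul_zero]
    · rw [map_zero, smul_zero]
  smul_mem' := by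
    intro r x hx
    refine ⟨?_, fun a => ?_⟩
    · rw [map_smul, hx.1, smul_comm]
    · rw [map_smul, hx.2 a, smul_comm]

/-- the weight of a set of basis elements -/
def gs (s : Finset I) : κ → ℤ := fun a => ∑ j ∈ s, c a j

variable {c}

theorem repr_Th {D : L →ₗ[F] L} {c : I → ℤ} (hc : ∀ j, D (b j) = (c j : F) • b j)
    (ω : ExteriorAlgebra F L) (s : Finset I) : b.ExteriorAlgebra.repr (Th D ω) s =
      ((∑ j ∈ s, c j : ℤ) : F) * b.ExteriorAlgebra.repr ω s := by
  have h : (Finsupp.lapply s ∘ₗ b.ExteriorAlgebra.repr.toLinearMap) ∘ₗ Th D =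
      ((∑ j ∈ s, c j : ℤ) : F) • (Finsupp.lapply s ∘ₗ b.ExteriorAlgebra.repr.toLinearMap) := by
    apply b.ExteriorAlgebra.ext
    intro t
    simp only [LinearMap.comp_apply, Th_basis b hc, map_smul, LinearMap.smul_apply,
      LinearEquiv.coe_coe, Module.Basis.repr_self, Finsupp.lapply_apply, smul_eq_mul,
      Finsupp.single_apply]
    split_ifs with h
    · rw [h]
    · simp
  exact LinearMap.congr_fun h ω

theorem id_basis (j : I) : (LinearMap.id : L →ₗ[F] L) (b j) = (((fun _ => 1 : I → ℤ) j : ℤ) : F) • b j := by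
  simp

variable [CharZero F] (hc : ∀ a j, D a (b j) = (c a j : F) • b j)

include hc in
theorem mem_W_iff (k : ℕ) (γ : κ → ℤ) (ω : ExteriorAlgebra F L) : ω ∈ W D k γ ↔
    ∀ s, b.ExteriorAlgebra.repr ω s ≠ 0 → s.card = k ∧ gs c s = γ := by
  constructor
  · intro h s hs
    constructor
    · have h1 := repr_Th b (id_basis b) ω s
      rw [h.1, map_smul, Finsupp.smul_apply, smul_eq_mul] at h1
      have h2 := mul_right_cancel₀ hs h1
      simp only [Finset.sum_const, mul_one, nsmul_eq_mul] at h2
      exact_mod_cast h2.symm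
    · funext a
      have h1 := repr_Th b (hc a) ω s
      rw [h.2 a, map_smul, Finsupp.smul_apply, smul_eq_mul] at h1
      have h2 := mul_right_cancel₀ hs h1
      unfold gs
      exact_mod_cast h2.symm
  · intro h
    refine ⟨?_, fun a => ?_⟩
    · apply b.ExteriorAlgebra.ext_elem
      intro s
      rw [repr_Th b (id_basis b), map_smul, Finsupp.smul_apply, smul_eq_mul]
      by_cases h1 : b.ExteriorAlgebra.repr ω s = 0
      · rw [h1, mul_zero, mul_zero]
      · rw [← (h s h1).1]
        simp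
    · apply b.ExteriorAlgebra.ext_elem
      intro s
      rw [repr_Th b (hc a), map_smul, Finsupp.smul_apply, smul_eq_mul]
      by_cases h1 : b.ExteriorAlgebra.repr ω s = 0
      · rw [h1, mul_zero, mul_zero]
      · rw [← (h s h1).2]
        rfl

include hc in
theorem W_eq_span (k : ℕ) (γ : κ → ℤ) : W D k γ = Submodule.span F
    (Set.range fun s : {s : Finset I // s.card = k ∧ gs c s = γ} => b.ExteriorAlgebra s.1) := by
  ext ω
  rw [mem_W_iff b D hc]
  constructor
  · intro h
    rw [← b.ExteriorAlgebra.linearCombination_repr ω, Finsupp.linearCombination_apply]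
    refine Submodule.sum_mem _ fun s hs => Submodule.smul_mem _ _ (Submodule.subset_span ?_)
    exact ⟨⟨s, h s (Finsupp.mem_support_iff.1 hs)⟩, rfl⟩
  · intro h
    induction h using Submodule.span_induction with
    | mem x hx =>
      obtain ⟨⟨s, h⟩, rfl⟩ := hx
      intro t ht
      rw [Module.Basis.repr_self, Finsupp.single_apply] at ht
      split_ifs at ht with h1
      · rw [← h1]; exact h
      · exact absurd rfl ht
    | zero => intro t ht; simp at ht
    | add x y _ _ hx hy =>
      intro t ht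
      rw [map_add, Finsupp.add_apply] at ht
      by_cases h1 : b.ExteriorAlgebra.repr x t = 0
      · by_cases h2 : b.ExteriorAlgebra.repr y t = 0
        · rw [h1, h2, add_zero] at ht; exact absurd rfl ht
        · exact hy t h2
      · exact hx t h1
    | smul r x _ hx =>
      intro t ht
      rw [map_smul, Finsupp.smul_apply, smul_eq_mul] at ht
      exact hx t (right_ne_zero_of_mul ht)

include hc in
theorem W_le (k : ℕ) (γ : κ → ℤ) : W D k γ ≤ ⋀[F]^k L := by
  rw [W_eq_span b D hc, Submodule.span_le]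
  rintro _ ⟨⟨s, h⟩, rfl⟩
  have := basis_mem b s
  rw [h.1] at this
  exact this

include hc in
theorem finrank_W (k : ℕ) (γ : κ → ℤ) : Module.finrank F (W D k γ) =
    Nat.card {s : Finset I // s.card = k ∧ gs c s = γ} := by
  have h1 : LinearIndependent F
      (fun s : {s : Finset I // s.card = k ∧ gs c s = γ} => b.ExteriorAlgebra s.1) :=
    b.ExteriorAlgebra.linearIndependent.comp _ Subtype.val_injective
  rw [W_eq_span b D hc]
  exact Module.finrank_eq_nat_card_basis (Module.Basis.span h1)

include hc in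
theorem finite_W (k : ℕ) (γ : κ → ℤ) (h : Finite {s : Finset I // s.card = k ∧ gs c s = γ}) :
    FiniteDimensional F (W D k γ) := by
  have h1 : LinearIndependent F
      (fun s : {s : Finset I // s.card = k ∧ gs c s = γ} => b.ExteriorAlgebra s.1) :=
    b.ExteriorAlgebra.linearIndependent.comp _ Subtype.val_injective
  rw [W_eq_span b D hc]
  exact Module.Finite.of_basis (Module.Basis.span h1)

open Classical in
/-- the projection onto the elements of exterior degree `k` and weight `γ` -/
noncomputable def PW (c : κ → I → ℤ) (k : ℕ) (γ : κ → ℤ) :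
    ExteriorAlgebra F L →ₗ[F] ExteriorAlgebra F L :=
  b.ExteriorAlgebra.constr F fun s => if s.card = k ∧ gs c s = γ then b.ExteriorAlgebra s else 0

omit [CharZero F] in
theorem PW_basis (k : ℕ) (γ : κ → ℤ) (s : Finset I) : PW b c k γ (b.ExteriorAlgebra s) =
    (open Classical in if s.card = k ∧ gs c s = γ then b.ExteriorAlgebra s else 0) := by
  unfold PW
  rw [Module.Basis.constr_basis]

include hc in
theorem PW_mem (k : ℕ) (γ : κ → ℤ) (ω : ExteriorAlgebra F L) : PW b c k γ ω ∈ W D k γ := by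
  classical
  rw [← b.ExteriorAlgebra.linearCombination_repr ω, Finsupp.linearCombination_apply,
    Finsupp.sum, map_sum]
  refine Submodule.sum_mem _ fun s _ => ?_
  rw [map_smul, PW_basis]
  refine Submodule.smul_mem _ _ ?_
  split_ifs with h
  · rw [W_eq_span b D hc]
    exact Submodule.subset_span ⟨⟨s, h⟩, rfl⟩
  · exact Submodule.zero_mem _

include hc in
theorem PW_of_mem {k : ℕ} {γ : κ → ℤ} {ω : ExteriorAlgebra F L} (h : ω ∈ W D k γ)
    (k' : ℕ) (γ' : κ → ℤ) :
    PW b c k' γ' ω = (open Classical in if k = k' ∧ γ = γ' then ω else 0) := by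
  classical
  rw [W_eq_span b D hc] at h
  induction h using Submodule.span_induction with
  | mem x hx =>
    obtain ⟨⟨s, h⟩, rfl⟩ := hx
    rw [PW_basis, h.1, h.2]
  | zero => simp
  | add x y _ _ hx hy => rw [map_add, hx, hy]; split_ifs <;> simp
  | smul r x _ hx => rw [map_smul, hx]; split_ifs <;> simp

include hc in
theorem basis_mem_W (s : Finset I) : b.ExteriorAlgebra s ∈ W D s.card (gs c s) := by
  rw [W_eq_span b D hc]
  exact Submodule.subset_span ⟨⟨s, rfl, rfl⟩, rfl⟩

end Diag

section Lie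

variable {L : Type} [LieRing L] [LieAlgebra F L]

theorem Th_id_d (ω : ExteriorAlgebra F L) :
    Th LinearMap.id (d ω) = d (Th LinearMap.id ω) - d ω := by
  induction ω using ind with
  | h0 r => rw [Th_algebraMap, d_algebraMap, map_zero, map_zero, sub_zero]
  | ha x y hx hy => simp only [map_add, hx, hy]; abel
  | hm x m hx =>
    have h2 := Th_lie (LinearMap.id : L →ₗ[F] L) (adL m) x
    have h1 : (LinearMap.id : L →ₗ[F] L) * (adL m) - (adL m) * (LinearMap.id : L →ₗ[F] L) = 0 := by
      ext z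
      simp
    rw [h1, Th_zero] at h2
    have h3 := (sub_eq_zero.1 h2.symm)
    simp only [Th_ι_mul, map_add, d_ι_mul, map_sub, h3, hx, LinearMap.id_apply, mul_sub]
    abel

variable {κ : Type} {D : κ → L →ₗ[F] L}

theorem d_W (hD : ∀ a, IsDer (D a)) {k : ℕ} {γ : κ → ℤ} {ω : ExteriorAlgebra F L}
    (h : ω ∈ W D (k + 1) γ) : d ω ∈ W D k γ := by
  refine ⟨?_, fun a => ?_⟩
  · rw [Th_id_d, h.1, map_smul]
    push_cast
    rw [add_smul, one_smul, add_sub_cancel_right]
  · rw [← d_Th (hD a), h.2 a, map_smul]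

variable {I : Type} [LinearOrder I] (b : Module.Basis I F L) {c : κ → I → ℤ} [CharZero F]
  (hc : ∀ a j, D a (b j) = (c a j : F) • b j)

include hc in
theorem d_W_zero {γ : κ → ℤ} {ω : ExteriorAlgebra F L} (h : ω ∈ W D 0 γ) : d ω = 0 := by
  exact (d_mem_aux (W_le b D hc 0 γ h)).1 rfl

include hc in
theorem d_PW (hD : ∀ a, IsDer (D a)) (k : ℕ) (γ : κ → ℤ) (ω : ExteriorAlgebra F L) :
    d (PW b c (k + 1) γ ω) = PW b c k γ (d ω) := by
  classical
  have h : d ∘ₗ PW b c (k + 1) γ = PW b c k γ ∘ₗ d := by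
    apply b.ExteriorAlgebra.ext
    intro s
    simp only [LinearMap.comp_apply, PW_basis]
    rcases Nat.eq_zero_or_pos s.card with h0 | h0
    · have h1 := basis_mem_W b D hc s
      rw [h0] at h1
      rw [d_W_zero b hc h1, map_zero, if_neg (by omega), map_zero]
    · obtain ⟨m, hm⟩ : ∃ m, s.card = m + 1 := ⟨s.card - 1, by omega⟩
      have h1 := basis_mem_W b D hc s
      rw [hm] at h1
      rw [PW_of_mem b D hc (d_W hD h1), hm]
      by_cases h2 : m = k ∧ gs c s = γ
      · rw [if_pos h2, if_pos ⟨by omega, h2.2⟩]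
      · rw [if_neg h2, if_neg (fun h3 => h2 ⟨by omega, h3.2⟩), map_zero]
  exact LinearMap.congr_fun h ω

include hc in
/-- a boundary which is homogeneous is the boundary of a homogeneous element -/
theorem bdry_W (hD : ∀ a, IsDer (D a)) {k : ℕ} {γ : κ → ℤ} {v : ExteriorAlgebra F L}
    (hv : v ∈ W D k γ) (hB : v ∈ Bk F L k) : ∃ u ∈ W D (k + 1) γ, d u = v := by
  obtain ⟨ω, _, rfl⟩ := hB
  refine ⟨PW b c (k + 1) γ ω, PW_mem b D hc _ _ _, ?_⟩
  rw [d_PW b hc hD, PW_of_mem b D hc hv, if_pos ⟨rfl, rfl⟩]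

end Lie

end Pool.Agent.U691.CE
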