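import Mathlib

/-!
# Elementary facts about representations of `sl₂` in characteristic zero
-/

set_option autoImplicit false
set_option linter.unusedSectionVars false

namespace Pool.Agent.U691.CE

variable {F : Type} [Field F] [CharZero F] {M : Type} [AddCommGroup M] [Module F M]

/-- `e, f, h` satisfy the relations of `sl₂` -/
structure IsSl2 (e f h : M →ₗ[F] M) : Prop where
  ef : ∀ v, e (f v) = f (e v) + h v
  he : ∀ v, h (e v) = e (h v) + (2 : F) • e v
  hf : ∀ v, h (f v) = f (h v) - (2 : F) • f v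

variable {e f h : M →ₗ[F] M} (H : IsSl2 e f h)

include H

theorem wt_e {v : M} {j : F} (hv : h v = j • v) : h (e v) = (j + 2) • e v := by
  rw [H.he, hv, map_smul, add_smul]

theorem wt_f {v : M} {j : F} (hv : h v = j • v) : h (f v) = (j - 2) • f v := by
  rw [H.hf, hv, map_smul, sub_smul]

/-- the Casimir element minus a constant is onto -/
theorem cas_surj (Z : Submodule F M) (hZe : ∀ v ∈ Z, e v ∈ Z) (hZf : ∀ v ∈ Z, f v ∈ Z) (N : ℕ) :
    ∀ (j : F) (w : M), w ∈ Z → h w = j • w → (e ^ N) w = 0 → ∀ a : F,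
    (∀ m : ℕ, a ≠ (j + 2 * m) ^ 2 + 2 * (j + 2 * m)) →
    ∃ v ∈ Z, h v = j • v ∧ (4 : F) • e (f v) + (j ^ 2 - 2 * j - a) • v = w := by
  induction N with
  | zero =>
    intro j w _ _ h0 a _
    rw [pow_zero, Module.End.one_apply] at h0
    subst h0
    exact ⟨0, Z.zero_mem, by simp, by simp⟩
  | succ N ih =>
    intro j w hw hj h0 a ha
    obtain ⟨v, hv, hvj, hve⟩ := ih (j + 2) (e w) (hZe w hw) (wt_e H hj)
      (by rw [← h0, pow_succ, Module.End.mul_apply]) a (by
        intro m hm
        apply ha (m + 1)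
        rw [hm]
        push_cast
        ring)
    have hk : j ^ 2 + 2 * j - a ≠ 0 := by
      intro h1
      apply ha 0
      push_cast
      linear_combination -h1
    have h2 : e (f (f v)) = f (e (f v)) + j • f v := by
      rw [H.ef, wt_f H hvj]
      congr 2
      ring
    have h3 := congrArg f hve
    simp only [map_add, map_smul] at h3
    have h4 := H.ef w
    rw [hj] at h4
    refine ⟨(j ^ 2 + 2 * j - a)⁻¹ • (w - (4 : F) • f v), Z.smul_mem _ (Z.sub_mem hw
      (Z.smul_mem _ (hZf v hv))), ?_, ?_⟩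
    · rw [map_smul, map_sub, map_smul, hj, wt_f H hvj]
      module
    · have h5 : (4 : F) • e (f (w - (4 : F) • f v)) + (j ^ 2 - 2 * j - a) • (w - (4 : F) • f v) =
          (j ^ 2 + 2 * j - a) • w := by
        simp only [map_sub, map_smul, h2, smul_sub]
        linear_combination (norm := module) (-4 : F) • h3 + (4 : F) • h4
      rw [map_smul, map_smul, smul_comm (4 : F), smul_comm (j ^ 2 - 2 * j - a), ← smul_add, h5,
        smul_smul, inv_mul_cancel₀ hk, one_smul]

/-- `e` maps the weight space of `j - 2` onto that of `j` if `j ≥ 1` -/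
theorem e_surj (Z : Submodule F M) (hZe : ∀ v ∈ Z, e v ∈ Z) (hZf : ∀ v ∈ Z, f v ∈ Z) (N : ℕ)
    (j : ℕ) (hj1 : 1 ≤ j) (w : M) (hw : w ∈ Z) (hj : h w = (j : F) • w) (hN : (e ^ N) w = 0) :
    ∃ v ∈ Z, h v = ((j : F) - 2) • v ∧ e v = w := by
  obtain ⟨v, hv, hvj, hve⟩ := cas_surj H Z hZe hZf N (j : F) w hw hj hN
    ((j : F) ^ 2 - 2 * j) (by
      intro m hm
      have h1 : (j : F) ^ 2 - 2 * j = ((j + 2 * m : ℕ) : F) ^ 2 + 2 * ((j + 2 * m : ℕ) : F) := by
        push_cast; exact hm
      have h2 : ((j ^ 2 : ℕ) : F) = (((j + 2 * m) ^ 2 + 2 * (j + 2 * m) + 2 * j : ℕ) : F) := by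
        push_cast at h1 ⊢
        linear_combination h1
      have h3 : j ^ 2 = (j + 2 * m) ^ 2 + 2 * (j + 2 * m) + 2 * j := by exact_mod_cast h2
      nlinarith)
  refine ⟨(4 : F) • f v, Z.smul_mem _ (hZf v hv), ?_, ?_⟩
  · rw [map_smul, wt_f H hvj, smul_comm]
  · rw [map_smul, ← hve]
    module

theorem e_f_pow {v : M} {j : F} (hj : h v = j • v) (he : e v = 0) (k : ℕ) :
    h ((f ^ k) v) = (j - 2 * k) • (f ^ k) v ∧
    e ((f ^ (k + 1)) v) = ((k + 1) * (j - k)) • (f ^ k) v := by
  induction k with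
  | zero =>
    refine ⟨by simp [hj], ?_⟩
    rw [zero_add, pow_one, pow_zero, Module.End.one_apply, H.ef, he, map_zero, zero_add, hj]
    simp
  | succ k ih =>
    have h1 : h ((f ^ (k + 1)) v) = (j - 2 * ((k + 1 : ℕ) : F)) • (f ^ (k + 1)) v := by
      rw [pow_succ', Module.End.mul_apply, wt_f H ih.1]
      congr 1
      push_cast
      ring
    refine ⟨h1, ?_⟩
    rw [pow_succ', Module.End.mul_apply, H.ef, ih.2, h1, map_smul, ← Module.End.mul_apply,
      ← pow_succ']
    push_cast
    module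

/-- a vector of negative weight which is killed by `e` vanishes -/
theorem e_inj {v : M} {j : ℕ} (hj1 : 1 ≤ j) (hj : h v = (-(j : F)) • v) (he : e v = 0)
    {N : ℕ} (hN : (f ^ N) v = 0) : v = 0 := by
  induction N with
  | zero => simpa using hN
  | succ N ih =>
    apply ih
    have h1 := (e_f_pow H hj he N).2
    rw [hN, map_zero] at h1
    refine (smul_eq_zero.1 h1.symm).resolve_left ?_
    intro h2
    have h3 : (((N + 1) * (j + N) : ℕ) : F) = 0 := by
      push_cast
      linear_combination -h2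
    rw [Nat.cast_eq_zero] at h3
    rcases Nat.mul_eq_zero.1 h3 with h4 | h4 <;> omega

/-- a vector of weight zero which is killed by `e` is invariant -/
theorem f_zero {v : M} (hj : h v = 0) (he : e v = 0) {N : ℕ} (hN : (f ^ N) (f v) = 0) :
    f v = 0 := by
  refine e_inj H (j := 2) (by norm_num) ?_ ?_ hN
  · have := wt_f H (v := v) (j := 0) (by rw [hj, zero_smul])
    rw [this]
    norm_num
  · rw [H.ef, he, map_zero, hj, zero_add]

/-- a vector of weight two which is killed by `e` is killed by `f³` -/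
theorem f3_zero {v : M} (hj : h v = (2 : F) • v) (he : e v = 0) {N : ℕ}
    (hN : (f ^ N) (f (f (f v))) = 0) : f (f (f v)) = 0 := by
  have h1 := (e_f_pow H hj he 3).1
  have h2 := (e_f_pow H hj he 2).2
  simp only [pow_succ, pow_zero, one_mul, Module.End.mul_apply] at h1 h2
  refine e_inj H (j := 4) (by norm_num) ?_ ?_ hN
  · rw [h1]
    congr 1
    push_cast
    ring
  · rw [h2]
    push_cast
    module

end Pool.Agent.U691.CE
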