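import Pool.Agent.U691.CE.Grade
import Pool.Agent.U691.CE.SL2
import Pool.Agent.U691.CE.Euler

/-!
# Highest weight vectors in the Chevalley–Eilenberg complex (case of `sl₂`)
-/

set_option autoImplicit false
set_option linter.unusedSectionVars false

namespace Pool.Agent.U691.CE

open ExteriorAlgebra

/-- A graded Lie algebra with an action of `sl₂` by derivations, with a basis which consists of
homogeneous weight vectors. -/
structure Dat (F : Type) [Field F] (L : Type) [LieRing L] [LieAlgebra F L] (I : Type)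
    [LinearOrder I] where
  b : Module.Basis I F L
  e : L →ₗ[F] L
  f : L →ₗ[F] L
  h : L →ₗ[F] L
  N : L →ₗ[F] L
  de : IsDer e
  df : IsDer f
  dh : IsDer h
  dN : IsDer N
  sl : IsSl2 e f h
  Ne : ∀ v, N (e v) = e (N v)
  Nf : ∀ v, N (f v) = f (N v)
  deg : I → ℤ
  hw : I → ℤ
  hdeg : ∀ j, N (b j) = (deg j : F) • b j
  hhw : ∀ j, h (b j) = (hw j : F) • b j
  pos : ∀ j, 1 ≤ deg j
  bd1 : ∀ j, hw j ≤ 2 * deg j
  bd2 : ∀ j, -(2 * deg j) ≤ hw j
  fin : ∀ n : ℤ, {j | deg j ≤ n}.Finite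

variable {F : Type} [Field F] [CharZero F] {L : Type} [LieRing L] [LieAlgebra F L] {I : Type}
  [LinearOrder I]

theorem isSl2_Th {e f h : L →ₗ[F] L} (H : IsSl2 e f h) : IsSl2 (Th e) (Th f) (Th h) := by
  refine ⟨fun v => ?_, fun v => ?_, fun v => ?_⟩
  · have h1 : e * f - f * e = h := by
      ext x
      simp only [LinearMap.sub_apply, Module.End.mul_apply]
      rw [H.ef]; abel
    have h2 := Th_lie e f v
    rw [h1] at h2
    rw [h2]; abel
  · have h1 : h * e - e * h = (2 : F) • e := by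
      ext x
      simp only [LinearMap.sub_apply, Module.End.mul_apply, LinearMap.smul_apply]
      rw [H.he]; abel
    have h2 := Th_lie h e v
    rw [h1, Th_smul] at h2
    rw [h2]; abel
  · have h1 : h * f - f * h = (-2 : F) • f := by
      ext x
      simp only [LinearMap.sub_apply, Module.End.mul_apply, LinearMap.smul_apply]
      rw [H.hf, neg_smul]; abel
    have h2 := Th_lie h f v
    rw [h1, Th_smul, neg_smul] at h2
    rw [eq_sub_iff_add_eq, ← sub_eq_zero, ← neg_eq_zero]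
    rw [← sub_eq_zero] at h2
    rw [← h2]; abel

theorem Th_comm {D D' : L →ₗ[F] L} (H : ∀ v, D (D' v) = D' (D v)) (ω : ExteriorAlgebra F L) :
    Th D (Th D' ω) = Th D' (Th D ω) := by
  have h1 : D * D' - D' * D = 0 := by
    ext x
    simp only [LinearMap.sub_apply, Module.End.mul_apply, LinearMap.zero_apply]
    rw [H, sub_self]
  have h2 := Th_lie D D' ω
  rw [h1, Th_zero] at h2
  exact sub_eq_zero.1 h2.symm

namespace Dat

variable (X : Dat F L I)

/-- the two grading operators -/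
def D : Fin 2 → L →ₗ[F] L := ![X.N, X.h]

/-- their eigenvalues -/
def c : Fin 2 → I → ℤ := ![X.deg, X.hw]

theorem hc : ∀ a j, X.D a (X.b j) = (X.c a j : F) • X.b j := by
  intro a j
  fin_cases a
  · exact X.hdeg j
  · exact X.hhw j

theorem hD : ∀ a, IsDer (X.D a) := by
  intro a
  fin_cases a
  · exact X.dN
  · exact X.dh

/-- exterior degree `k`, degree `n`, weight `i` -/
noncomputable def V (k : ℕ) (n i : ℤ) : Submodule F (ExteriorAlgebra F L) := W X.D k ![n, i]

theorem mem_V {k : ℕ} {n i : ℤ} {ω : ExteriorAlgebra F L} : ω ∈ X.V k n i ↔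
    Th LinearMap.id ω = (k : F) • ω ∧ Th X.N ω = (n : F) • ω ∧ Th X.h ω = (i : F) • ω := by
  constructor
  · intro h
    exact ⟨h.1, h.2 0, h.2 1⟩
  · rintro ⟨h1, h2, h3⟩
    refine ⟨h1, fun a => ?_⟩
    fin_cases a
    · exact h2
    · exact h3

/-- exterior degree `k` and degree `n` -/
noncomputable def U (k : ℕ) (n : ℤ) : Submodule F (ExteriorAlgebra F L) where
  carrier := {ω | Th LinearMap.id ω = (k : F) • ω ∧ Th X.N ω = (n : F) • ω}
  add_mem' := by
    intro x y hx hy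
    exact ⟨by rw [map_add, hx.1, hy.1, smul_add], by rw [map_add, hx.2, hy.2, smul_add]⟩
  zero_mem' := ⟨by rw [map_zero, smul_zero], by rw [map_zero, smul_zero]⟩
  smul_mem' := by
    intro r x hx
    exact ⟨by rw [map_smul, hx.1, smul_comm], by rw [map_smul, hx.2, smul_comm]⟩

theorem U_e {k : ℕ} {n : ℤ} {ω : ExteriorAlgebra F L} (h : ω ∈ X.U k n) : Th X.e ω ∈ X.U k n := by
  refine ⟨?_, ?_⟩
  · rw [Th_comm (D := LinearMap.id) (D' := X.e) (fun v => rfl), h.1, map_smul]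
  · rw [Th_comm X.Ne, h.2, map_smul]

theorem U_f {k : ℕ} {n : ℤ} {ω : ExteriorAlgebra F L} (h : ω ∈ X.U k n) : Th X.f ω ∈ X.U k n := by
  refine ⟨?_, ?_⟩
  · rw [Th_comm (D := LinearMap.id) (D' := X.f) (fun v => rfl), h.1, map_smul]
  · rw [Th_comm X.Nf, h.2, map_smul]

theorem mem_V_iff {k : ℕ} {n i : ℤ} {ω : ExteriorAlgebra F L} :
    ω ∈ X.V k n i ↔ ω ∈ X.U k n ∧ Th X.h ω = (i : F) • ω := by
  rw [mem_V]
  constructor
  · rintro ⟨h1, h2, h3⟩; exact ⟨⟨h1, h2⟩, h3⟩
  · rintro ⟨⟨h1, h2⟩, h3⟩; exact ⟨h1, h2, h3⟩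

theorem gs_0 (s : Finset I) : gs X.c s 0 = ∑ j ∈ s, X.deg j := rfl

theorem gs_1 (s : Finset I) : gs X.c s 1 = ∑ j ∈ s, X.hw j := rfl

theorem gs_eq (s : Finset I) (n i : ℤ) : gs X.c s = ![n, i] ↔
    ∑ j ∈ s, X.deg j = n ∧ ∑ j ∈ s, X.hw j = i := by
  constructor
  · intro h
    exact ⟨by rw [← gs_0, h]; rfl, by rw [← gs_1, h]; rfl⟩
  · rintro ⟨h1, h2⟩
    funext a
    fin_cases a
    · exact h1
    · exact h2

theorem card_le (s : Finset I) : (s.card : ℤ) ≤ ∑ j ∈ s, X.deg j := by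
  have := Finset.sum_le_sum (s := s) fun j _ => X.pos j
  simpa using this

theorem wt_le (s : Finset I) : ∑ j ∈ s, X.hw j ≤ 2 * ∑ j ∈ s, X.deg j := by
  rw [Finset.mul_sum]
  exact Finset.sum_le_sum fun j _ => X.bd1 j

theorem le_wt (s : Finset I) : -(2 * ∑ j ∈ s, X.deg j) ≤ ∑ j ∈ s, X.hw j := by
  rw [Finset.mul_sum, ← Finset.sum_neg_distrib]
  exact Finset.sum_le_sum fun j _ => X.bd2 j

/-- the basis elements of degree at most `n` -/
noncomputable def In (n : ℤ) : Finset I := (X.fin n).toFinset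

theorem mem_In {n : ℤ} {j : I} : j ∈ X.In n ↔ X.deg j ≤ n := by
  unfold In
  rw [Set.Finite.mem_toFinset]
  rfl

theorem sub_In {s : Finset I} {n : ℤ} (h : ∑ j ∈ s, X.deg j ≤ n) : s ⊆ X.In n := by
  intro j hj
  rw [mem_In]
  refine le_trans ?_ h
  exact Finset.single_le_sum (f := X.deg) (fun i _ => by have := X.pos i; omega) hj

theorem finite_s (k : ℕ) (n i : ℤ) : Finite {s : Finset I // s.card = k ∧ gs X.c s = ![n, i]} := by
  apply Set.Finite.to_subtype (s := {s : Finset I | s.card = k ∧ gs X.c s = ![n, i]})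
  apply Set.Finite.subset ((X.In n).powerset.finite_toSet)
  rintro s ⟨_, h2⟩
  rw [gs_eq] at h2
  simp only [Finset.coe_powerset, Set.mem_preimage, Set.mem_powerset_iff, Finset.coe_subset]
  exact X.sub_In h2.1.le

instance fin_V (k : ℕ) (n i : ℤ) : FiniteDimensional F (X.V k n i) :=
  finite_W X.b X.D X.hc k _ (X.finite_s k n i)

/-- the number of sets of basis elements of given cardinality, degree and weight -/
noncomputable def cnt (k : ℕ) (n i : ℤ) : ℕ :=
  Nat.card {s : Finset I // s.card = k ∧ gs X.c s = ![n, i]}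

theorem finrank_V (k : ℕ) (n i : ℤ) : Module.finrank F (X.V k n i) = X.cnt k n i :=
  finrank_W X.b X.D X.hc k _

theorem V_bot {k : ℕ} {n i : ℤ}
    (h : ∀ s : Finset I, s.card = k → ∑ j ∈ s, X.deg j = n → ∑ j ∈ s, X.hw j = i → False) :
    X.V k n i = ⊥ := by
  rw [eq_bot_iff]
  intro ω hω
  unfold V at hω
  rw [mem_W_iff X.b X.D X.hc] at hω
  rw [Submodule.mem_bot]
  apply X.b.ExteriorAlgebra.ext_elem
  intro s
  by_contra h1
  have h2 := hω s (by simpa using h1)
  rw [gs_eq] at h2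
  exact h s h2.1 h2.2.1 h2.2.2

theorem V_e {k : ℕ} {n i : ℤ} {ω : ExteriorAlgebra F L} (h : ω ∈ X.V k n i) :
    Th X.e ω ∈ X.V k n (i + 2) := by
  rw [mem_V_iff] at h ⊢
  refine ⟨X.U_e h.1, ?_⟩
  rw [wt_e (isSl2_Th X.sl) h.2]
  push_cast
  rfl

theorem V_f {k : ℕ} {n i : ℤ} {ω : ExteriorAlgebra F L} (h : ω ∈ X.V k n i) :
    Th X.f ω ∈ X.V k n (i - 2) := by
  rw [mem_V_iff] at h ⊢
  refine ⟨X.U_f h.1, ?_⟩
  rw [wt_f (isSl2_Th X.sl) h.2]
  push_cast
  rfl

theorem V_e_pow {k : ℕ} {n i : ℤ} {ω : ExteriorAlgebra F L} (h : ω ∈ X.V k n i) (m : ℕ) :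
    (Th X.e ^ m) ω ∈ X.V k n (i + 2 * m) := by
  induction m with
  | zero => simpa using h
  | succ m ih =>
    rw [pow_succ', Module.End.mul_apply]
    have := X.V_e ih
    rw [add_assoc] at this
    convert this using 2
    push_cast
    ring

theorem V_f_pow {k : ℕ} {n i : ℤ} {ω : ExteriorAlgebra F L} (h : ω ∈ X.V k n i) (m : ℕ) :
    (Th X.f ^ m) ω ∈ X.V k n (i - 2 * m) := by
  induction m with
  | zero => simpa using h
  | succ m ih =>
    rw [pow_succ', Module.End.mul_apply]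
    have := X.V_f ih
    rw [sub_sub] at this
    convert this using 2
    push_cast
    ring

theorem e_nil {k : ℕ} {n i : ℤ} {ω : ExteriorAlgebra F L} (h : ω ∈ X.V k n i) :
    ∃ m : ℕ, (Th X.e ^ m) ω = 0 := by
  refine ⟨(2 * n - i + 1).toNat, ?_⟩
  have h1 := X.V_e_pow h (2 * n - i + 1).toNat
  rw [X.V_bot, Submodule.mem_bot] at h1
  · exact h1
  · intro s _ h2 h3
    have h4 := X.wt_le s
    omega

theorem f_nil {k : ℕ} {n i : ℤ} {ω : ExteriorAlgebra F L} (h : ω ∈ X.V k n i) :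
    ∃ m : ℕ, (Th X.f ^ m) ω = 0 := by
  refine ⟨(2 * n + i + 1).toNat, ?_⟩
  have h1 := X.V_f_pow h (2 * n + i + 1).toNat
  rw [X.V_bot, Submodule.mem_bot] at h1
  · exact h1
  · intro s _ h2 h3
    have h4 := X.le_wt s
    omega

/-- the highest weight vectors -/
noncomputable def HW (n i : ℤ) (k : ℕ) : Submodule F (ExteriorAlgebra F L) :=
  X.V k n i ⊓ LinearMap.ker (Th X.e)

theorem finrank_HW (k : ℕ) (n : ℤ) (i : ℕ) : (Module.finrank F (X.HW n i k) : ℤ) =
    X.cnt k n i - X.cnt k n (i + 2) := by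
  have h1 := rank_nullity (Th X.e) (X.V k n i)
  have h2 : (X.V k n i).map (Th X.e) = X.V k n (i + 2) := by
    apply le_antisymm
    · rintro _ ⟨v, hv, rfl⟩
      exact X.V_e hv
    · intro w hw
      obtain ⟨m, hm⟩ := X.e_nil hw
      rw [mem_V_iff] at hw
      obtain ⟨v, hv, hvj, hvw⟩ := e_surj (isSl2_Th X.sl) (X.U k n) (fun v hv => X.U_e hv)
        (fun v hv => X.U_f hv) m (i + 2) (by omega) w hw.1 (by rw [hw.2]; push_cast; rfl) hm
      refine ⟨v, ?_, hvw⟩
      rw [SetLike.mem_coe, mem_V_iff]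
      refine ⟨hv, ?_⟩
      rw [hvj]
      congr 1
      push_cast
      ring
  rw [h2, finrank_V, finrank_V] at h1
  unfold HW
  omega

/-- cycles of exterior degree `k` and degree `n` -/
noncomputable def UZ (k : ℕ) (n : ℤ) : Submodule F (ExteriorAlgebra F L) :=
  X.U k n ⊓ LinearMap.ker d

theorem main_sum {n : ℤ} (hn : 1 ≤ n) (i : ℕ)
    (hyp : ∀ k : ℕ, 1 ≤ k → ∀ v ∈ X.V k n i, Th X.e v = 0 → d v = 0 → v ∈ Bk F L k) (m : ℕ)
    (hm : n < m) :
    ∑ k ∈ Finset.range m, (-1 : ℤ) ^ k * ((X.cnt k n i : ℤ) - X.cnt k n (i + 2)) = 0 := by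
  have h1 := euler (d (F := F) (L := L)) (X.HW n i)
    (fun k => Submodule.finiteDimensional_of_le (inf_le_left : _ ≤ X.V k n i))
    (by
      rintro k v ⟨hv1, hv2⟩
      refine ⟨d_W X.hD hv1, ?_⟩
      show Th X.e (d v) = 0
      rw [← d_Th X.de]
      have : Th X.e v = 0 := hv2
      rw [this, map_zero])
    (fun v => d_d v)
    (by
      unfold HW
      rw [X.V_bot, bot_inf_eq]
      intro s h1 h2 _
      rw [Finset.card_eq_zero] at h1
      subst h1
      simp at h2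
      omega)
    (by
      rintro k v ⟨hv1, hv2⟩ hdv
      have hv3 : Th X.e v = 0 := hv2
      have h3 := hyp (k + 1) (by omega) v hv1 hv3 hdv
      obtain ⟨u, hu, hdu⟩ := bdry_W X.b X.hc X.hD hv1 h3
      have hu' : u ∈ X.V (k + 2) n i := hu
      have hw := X.V_e hu'
      have hdw : d (Th X.e u) = 0 := by rw [d_Th X.de, hdu, hv3]
      obtain ⟨N, hN⟩ := X.e_nil hw
      rw [mem_V_iff] at hw
      obtain ⟨u', hu1, hu2, hu3⟩ := e_surj (isSl2_Th X.sl) (X.UZ (k + 2) n)
        (fun v hv => ⟨X.U_e hv.1, by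
          have h4 : d v = 0 := hv.2
          show d (Th X.e v) = 0
          rw [d_Th X.de, h4, map_zero]⟩)
        (fun v hv => ⟨X.U_f hv.1, by
          have h4 : d v = 0 := hv.2
          show d (Th X.f v) = 0
          rw [d_Th X.df, h4, map_zero]⟩) N (i + 2) (by omega) (Th X.e u)
        ⟨hw.1, hdw⟩ (by rw [hw.2]; push_cast; rfl) hN
      have hdu' : d u' = 0 := hu1.2
      refine ⟨u - u', ⟨Submodule.sub_mem _ hu' ?_, ?_⟩, ?_⟩
      · rw [mem_V_iff]
        refine ⟨hu1.1, ?_⟩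
        rw [hu2]
        congr 1
        push_cast
        ring
      · show Th X.e (u - u') = 0
        rw [map_sub, hu3, sub_self]
      · rw [map_sub, hdu, hdu', sub_zero])
    m
    (by
      unfold HW
      rw [X.V_bot, bot_inf_eq]
      intro s h1 h2 _
      have := X.card_le s
      omega)
  rw [← h1]
  refine Finset.sum_congr rfl fun k _ => ?_
  rw [X.finrank_HW]

end Dat

end Pool.Agent.U691.CE
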