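import Pool.Agent.U691.CE.HW

/-!
# Highest weight cycles which are not boundaries generate modules in homology
-/

set_option autoImplicit false
set_option linter.unusedSectionVars false

namespace Pool.Agent.U691.CE

open ExteriorAlgebra

variable {F : Type} [Field F] [CharZero F] {L : Type} [LieRing L] [LieAlgebra F L] {I : Type}
  [LinearOrder I]

namespace Dat

variable (X : Dat F L I)

theorem V_Zk {k : ℕ} {n i : ℤ} {v : ExteriorAlgebra F L} (h : v ∈ X.V k n i) (hd : d v = 0) :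
    v ∈ Zk F L k := ⟨W_le X.b X.D X.hc k _ h, hd⟩

theorem hyp_zero {k : ℕ} (hno : ∀ v ∈ Zk F L k, Th X.e v = 0 → Th X.f v = 0 → Th X.h v = 0 →
    v ∈ Bk F L k) (n : ℤ) : ∀ v ∈ X.V k n (0 : ℕ), Th X.e v = 0 → d v = 0 → v ∈ Bk F L k := by
  intro v hv he hd
  have hv0 : Th X.h v = 0 := by
    rw [((X.mem_V).1 hv).2.2]
    simp
  obtain ⟨m, hm⟩ := X.f_nil (X.V_f hv)
  exact hno v (X.V_Zk hv hd) he (f_zero (isSl2_Th X.sl) hv0 he hm) hv0

theorem hyp_two {k : ℕ} (hno : ∀ v ∈ Zk F L k, Th X.e v = 0 → Th X.f (Th X.f (Th X.f v)) = 0 →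
    Th X.h v = (2 : F) • v → v ∈ Bk F L k) (n : ℤ) :
    ∀ v ∈ X.V k n (2 : ℕ), Th X.e v = 0 → d v = 0 → v ∈ Bk F L k := by
  intro v hv he hd
  have hv0 : Th X.h v = (2 : F) • v := by
    rw [((X.mem_V).1 hv).2.2]
    norm_num
  obtain ⟨m, hm⟩ := X.f_nil (X.V_f (X.V_f (X.V_f hv)))
  exact hno v (X.V_Zk hv hd) he (f3_zero (isSl2_Th X.sl) hv0 he hm) hv0

theorem d_ι_ι (y z : L) : d (ι F y * ι F z) = ι F ⁅y, z⁆ := by
  rw [d_ι_mul, d_ι, mul_zero, sub_zero, Th_ι, adL_apply]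

theorem ι_lie_mem (y z : L) : ι F ⁅y, z⁆ ∈ Bk F L 1 := by
  refine ⟨ι F y * ι F z, ?_, d_ι_ι y z⟩
  apply ι_mul_mem
  have := ι_mul_mem (F := F) z (k := 0) (ω := 1) (by
    rw [exteriorPower, pow_zero]
    exact Submodule.mem_one.2 ⟨1, map_one _⟩)
  rwa [mul_one] at this

theorem ι_mem_Bk {x : L} (h : x ∈ Submodule.span F {x : L | ∃ y z : L, x = ⁅y, z⁆}) :
    ι F x ∈ Bk F L 1 := by
  induction h using Submodule.span_induction with
  | mem x hx =>
    obtain ⟨y, z, rfl⟩ := hx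
    exact ι_lie_mem y z
  | zero => rw [map_zero]; exact Submodule.zero_mem _
  | add x y _ _ hx hy => rw [map_add]; exact Submodule.add_mem _ hx hy
  | smul c x _ hx => rw [map_smul]; exact Submodule.smul_mem _ _ hx

/-- the first homology vanishes in degree `n` if the basis elements of degree `n` are sums of
brackets -/
theorem hyp_one {n : ℤ} (hn : ∀ j, X.deg j = n →
    X.b j ∈ Submodule.span F {x : L | ∃ y z : L, x = ⁅y, z⁆}) (i : ℤ) :
    ∀ v ∈ X.V 1 n i, v ∈ Bk F L 1 := by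
  intro v hv
  have h1 : v ∈ W X.D 1 ![n, i] := hv
  rw [W_eq_span X.b X.D X.hc] at h1
  refine Submodule.span_le.2 ?_ h1
  rintro _ ⟨⟨s, hs1, hs2⟩, rfl⟩
  obtain ⟨j, rfl⟩ := Finset.card_eq_one.1 hs1
  rw [gs_eq, Finset.sum_singleton] at hs2
  have h2 : X.b.ExteriorAlgebra {j} = ι F (X.b j) := by
    rw [basis_eq]
    have h3 : ∀ i, ({j} : Finset I).orderEmbOfFin rfl i = j := fun i =>
      Finset.mem_singleton.1 (Finset.orderEmbOfFin_mem _ rfl i)
    simp only [h3]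
    rw [ιMulti_apply]
    simp
  simp only
  rw [SetLike.mem_coe, h2]
  exact ι_mem_Bk (hn j hs2.1)

end Dat

end Pool.Agent.U691.CE
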